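import Pool.Agent.E8helper80.AX.Defs

/-!
# Project AX (helper80), piece A1: the polynomial `hp`
-/

namespace Pool.Agent.E8helper98.AX

open Finset Pool.Agent.TH176.Nag Polynomial Pool.Agent.E8helper80.AX

theorem prod_desc (F : Type*) [Field F] (n k : ℕ) :
    ∏ q ∈ range k, ((n : F) - (q : F)) = (k.factorial : F) * (n.choose k : F) := by
  rw [← descPochhammer_eval_eq_prod_range, descPochhammer_eval_eq_descFactorial,
    Nat.descFactorial_eq_factorial_mul_choose, Nat.cast_mul]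

theorem hp_coeff {F : Type*} [Field F] {f : (ℤ × ℤ) →₀ F} {T b : ℕ}
    (hf : ∀ p ∈ f.support, p.1 ≤ T ∧ 0 ≤ p.2) {c : ℤ} {e : ℕ} (hc : (e : ℤ) = T - c) :
    (hp f T b).coeff e = tc f c b := by
  unfold hp tc Finsupp.sum
  rw [finset_sum_coeff]
  refine Finset.sum_congr rfl fun p hp' => ?_
  obtain ⟨h1, h2⟩ := hf p hp'
  beta_reduce
  rw [mul_assoc, coeff_C_mul, coeff_X_pow_mul']
  by_cases h3 : ((T : ℤ) - p.1).toNat + b ≤ e
  · rw [if_pos h3, coeff_one_add_X_pow]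
    have h4 : ¬ p.1 < c := by omega
    rw [if_neg h4]
    have h5 : e - (((T : ℤ) - p.1).toNat + b) = (p.1 - c).toNat - b := by omega
    have h6 : b ≤ (p.1 - c).toNat := by omega
    rw [h5, mul_assoc, ← Nat.cast_mul, Nat.choose_mul h6]
  · rw [if_neg h3, mul_zero]
    by_cases h4 : p.1 < c
    · rw [if_pos h4]
    · rw [if_neg h4]
      have h6 : (p.1 - c).toNat < b := by omega
      rw [Nat.choose_eq_zero_of_lt h6, mul_zero, Nat.cast_zero, mul_zero]

/-- one term of the Taylor coefficient -/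
theorem term_eq {F : Type*} [Field F] [CharZero F] {T b i k : ℕ} {p : ℤ × ℤ} (h1 : p.1 ≤ T)
    (h2 : 0 ≤ p.2) {s : F} (hs : s ≠ 0) (hs1 : 1 + s ≠ 0) :
    ((p.2.toNat.choose b : ℕ) : F) *
      ((s ^ (((T : ℤ) - p.1).toNat + b - i) * (((((T : ℤ) - p.1).toNat + b).choose i : ℕ) : F)) *
        ((1 + s) ^ (p.2.toNat - b - k) * (((p.2.toNat - b).choose k : ℕ) : F))) =
    (s ^ ((T : ℤ) + b - i) * (1 + s) ^ (-((b : ℤ) + k)) * (((b + k).choose b : ℕ) : F) *
      ((i.factorial : F) * ((b + k).factorial : F))⁻¹) *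
      (((∏ q ∈ range i, (((T + b : ℕ) : F) + (-1) * (p.1 : F) + 0 * (p.2 : F) - (q : F))) *
        ∏ q ∈ range (b + k), ((0 : F) + 0 * (p.1 : F) + 1 * (p.2 : F) - (q : F))) *
      (s⁻¹ ^ p.1 * (1 + s) ^ p.2)) := by
  obtain ⟨t, j⟩ := p
  simp only at h1 h2 ⊢
  obtain ⟨j, rfl⟩ := Int.eq_ofNat_of_zero_le h2
  obtain ⟨N, hN⟩ : ∃ N : ℕ, (T : ℤ) - t = N := ⟨((T : ℤ) - t).toNat, by omega⟩
  have ht : t = (T : ℤ) - N := by omega
  subst ht
  rw [show ((T : ℤ) - ((T : ℤ) - (N : ℤ))).toNat = N by omega, Int.toNat_natCast]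
  have e1 : ∏ q ∈ range i, (((T + b : ℕ) : F) + (-1) * ((((T : ℤ) - (N : ℤ)) : ℤ) : F) +
      0 * (((j : ℕ) : ℤ) : F) - (q : F)) = (i.factorial : F) * ((N + b).choose i : F) := by
    rw [← prod_desc]
    refine Finset.prod_congr rfl fun q _ => ?_
    push_cast
    ring
  have e2 : ∏ q ∈ range (b + k), ((0 : F) + 0 * ((((T : ℤ) - (N : ℤ)) : ℤ) : F) +
      1 * (((j : ℕ) : ℤ) : F) - (q : F)) = ((b + k).factorial : F) * (j.choose (b + k) : F) := by
    rw [← prod_desc]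
    refine Finset.prod_congr rfl fun q _ => ?_
    push_cast
    ring
  rw [e1, e2]
  have f1 : (i.factorial : F) ≠ 0 := by exact_mod_cast i.factorial_ne_zero
  have f2 : ((b + k).factorial : F) ≠ 0 := by exact_mod_cast (b + k).factorial_ne_zero
  have c1 : (j.choose b : F) * ((j - b).choose k : F) = (j.choose (b + k) : F) *
      ((b + k).choose b : F) := by
    have := Nat.choose_mul (n := j) (k := b + k) (s := b) (by omega)
    rw [show b + k - b = k by omega] at this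
    exact_mod_cast this.symm
  have key : s ^ (N + b - i) * ((N + b).choose i : F) =
      s ^ ((T : ℤ) + b - i) * s⁻¹ ^ ((T : ℤ) - N) * ((N + b).choose i : F) := by
    by_cases h : i ≤ N + b
    · congr 1
      rw [inv_zpow', ← zpow_add₀ hs, ← zpow_natCast]
      congr 1
      push_cast [Nat.cast_sub h]
      ring
    · rw [Nat.choose_eq_zero_of_lt (by omega)]
      simp
  have key2 : (1 + s) ^ (j - b - k) * (j.choose (b + k) : F) =
      (1 + s) ^ (-((b : ℤ) + k)) * (1 + s) ^ (j : ℤ) * (j.choose (b + k) : F) := by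
    by_cases h : b + k ≤ j
    · congr 1
      rw [← zpow_add₀ hs1, ← zpow_natCast]
      congr 1
      omega
    · rw [Nat.choose_eq_zero_of_lt (by omega)]
      simp
  calc (j.choose b : F) * ((s ^ (N + b - i) * ((N + b).choose i : F)) *
        ((1 + s) ^ (j - b - k) * ((j - b).choose k : F)))
      = (s ^ (N + b - i) * ((N + b).choose i : F)) * ((1 + s) ^ (j - b - k) *
          ((j.choose b : F) * ((j - b).choose k : F))) := by ring
    _ = (s ^ (N + b - i) * ((N + b).choose i : F)) * (((1 + s) ^ (j - b - k) *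
          (j.choose (b + k) : F)) * ((b + k).choose b : F)) := by rw [c1]; ring
    _ = _ := by
      rw [key, key2]
      field_simp

theorem hp_dvd {F : Type*} [Field F] [CharZero F] {f : (ℤ × ℤ) →₀ F} {T b m : ℕ}
    (hf : ∀ p ∈ f.support, p.1 ≤ T ∧ 0 ≤ p.2) {s : F} (hs : s ≠ 0) (hs1 : 1 + s ≠ 0)
    (hL : LM f s⁻¹ (1 + s) m) (hb : b < m) : (X - C s) ^ (m - b) ∣ hp f T b := by
  rw [X_sub_C_pow_dvd_iff, X_pow_dvd_iff]
  intro a ha
  have hcomp : (hp f T b).comp (X + C s) = ∑ p ∈ f.support,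
      C (f p * ((p.2.toNat.choose b : ℕ) : F)) * ((X + C s) ^ (((T : ℤ) - p.1).toNat + b) *
        (X + C (1 + s)) ^ (p.2.toNat - b)) := by
    unfold hp Finsupp.sum
    rw [Polynomial.sum_comp]
    refine Finset.sum_congr rfl fun p _ => ?_
    simp only [mul_comp, C_comp, pow_comp, X_comp, add_comp, one_comp, map_add, map_one]
    rw [mul_assoc]
    congr 3
    ring
  rw [hcomp, finset_sum_coeff]
  have h1 : ∀ p ∈ f.support, (C (f p * ((p.2.toNat.choose b : ℕ) : F)) *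
      ((X + C s) ^ (((T : ℤ) - p.1).toNat + b) * (X + C (1 + s)) ^ (p.2.toNat - b))).coeff a =
      ∑ x ∈ antidiagonal a, f p * (((p.2.toNat.choose b : ℕ) : F) *
      ((s ^ (((T : ℤ) - p.1).toNat + b - x.1) *
        (((((T : ℤ) - p.1).toNat + b).choose x.1 : ℕ) : F)) *
        ((1 + s) ^ (p.2.toNat - b - x.2) * (((p.2.toNat - b).choose x.2 : ℕ) : F)))) := by
    intro p _
    rw [coeff_C_mul, coeff_mul, Finset.mul_sum]
    refine Finset.sum_congr rfl fun x _ => ?_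
    rw [coeff_X_add_C_pow, coeff_X_add_C_pow]
    ring
  rw [Finset.sum_congr rfl h1, Finset.sum_comm]
  refine Finset.sum_eq_zero fun x hx => ?_
  rw [HasAntidiagonal.mem_antidiagonal] at hx
  have hP : (fun u : F × F => (∏ q ∈ range x.1, (((T + b : ℕ) : F) + (-1) * u.1 + 0 * u.2 -
      (q : F))) * ∏ q ∈ range (b + x.2), ((0 : F) + 0 * u.1 + 1 * u.2 - (q : F))) ∈ PF F m :=
    PF_comp_aff (PF_desc2 (K := F) (a := x.1) (b := b + x.2) (w := m) (by omega))
      ((T + b : ℕ) : F) (-1) 0 0 0 1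
  have h2 := hL _ hP
  unfold pr Finsupp.sum at h2
  have h3 : ∀ p ∈ f.support, f p * (((p.2.toNat.choose b : ℕ) : F) *
      ((s ^ (((T : ℤ) - p.1).toNat + b - x.1) *
        (((((T : ℤ) - p.1).toNat + b).choose x.1 : ℕ) : F)) *
        ((1 + s) ^ (p.2.toNat - b - x.2) * (((p.2.toNat - b).choose x.2 : ℕ) : F)))) =
      (s ^ ((T : ℤ) + b - x.1) * (1 + s) ^ (-((b : ℤ) + x.2)) * (((b + x.2).choose b : ℕ) : F) *
      ((x.1.factorial : F) * ((b + x.2).factorial : F))⁻¹) *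
      (f p * ((∏ q ∈ range x.1, (((T + b : ℕ) : F) + (-1) * (p.1 : F) + 0 * (p.2 : F) - (q : F))) *
        ∏ q ∈ range (b + x.2), ((0 : F) + 0 * (p.1 : F) + 1 * (p.2 : F) - (q : F))) *
      (s⁻¹ ^ p.1 * (1 + s) ^ p.2)) := by
    intro p hp'
    obtain ⟨k1, k2⟩ := hf p hp'
    rw [term_eq (T := T) (b := b) (i := x.1) (k := x.2) k1 k2 hs hs1]
    ring
  rw [Finset.sum_congr rfl h3, ← Finset.mul_sum, h2, mul_zero]

end Pool.Agent.E8helper98.AX
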